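import Mathlib

open Set

namespace Pool.Agent.H.MP_0f8bf3_al

section poly
variable {V W U : Type} [AddCommGroup V] [Module ℝ V] [AddCommGroup W] [Module ℝ W]
  [AddCommGroup U] [Module ℝ U]

def IsPoly (P : Set V) : Prop :=
  ∃ L : Set (V →ᵃ[ℝ] ℝ), L.Finite ∧ P = {x | ∀ l ∈ L, 0 ≤ l x}

lemma IsPoly.univ : IsPoly (univ : Set V) := ⟨∅, finite_empty, by simp⟩

lemma IsPoly.half (l : V →ᵃ[ℝ] ℝ) : IsPoly {x | 0 ≤ l x} := ⟨{l}, finite_singleton _, by simp⟩

lemma IsPoly.inter {P Q : Set V} (hP : IsPoly P) (hQ : IsPoly Q) : IsPoly (P ∩ Q) := by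
  obtain ⟨L, hL, rfl⟩ := hP
  obtain ⟨M, hM, rfl⟩ := hQ
  refine ⟨L ∪ M, hL.union hM, ?_⟩
  ext x
  simp only [mem_inter_iff, mem_setOf_eq, mem_union, or_imp, forall_and]

lemma IsPoly.preimage {Q : Set W} (hQ : IsPoly Q) (A : V →ᵃ[ℝ] W) : IsPoly (A ⁻¹' Q) := by
  obtain ⟨M, hM, rfl⟩ := hQ
  refine ⟨(fun l => l.comp A) '' M, hM.image _, ?_⟩
  ext x
  simp

def PL (X : Set V) (f : V → W) : Prop :=
  ∃ S : Set (Set V × (V →ᵃ[ℝ] W)), S.Finite ∧ (∀ p ∈ S, IsPoly p.1) ∧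
    (∀ x ∈ X, ∃ p ∈ S, x ∈ p.1) ∧ ∀ p ∈ S, ∀ x ∈ X, x ∈ p.1 → f x = p.2 x

lemma PL.affine (X : Set V) (A : V →ᵃ[ℝ] W) : PL X A :=
  ⟨{(univ, A)}, finite_singleton _, by simp [IsPoly.univ], by simp, by simp⟩

lemma PL.congr {X : Set V} {f g : V → W} (h : PL X f) (e : ∀ x ∈ X, g x = f x) : PL X g := by
  obtain ⟨S, a, b, c, d⟩ := h
  exact ⟨S, a, b, c, fun p hp x hx h => (e x hx).trans (d p hp x hx h)⟩

lemma PL.comp {X : Set V} {Y : Set W} {f : V → W} {g : W → U} (hg : PL Y g) (hf : PL X f)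
    (m : ∀ x ∈ X, f x ∈ Y) : PL X (fun x => g (f x)) := by
  obtain ⟨S, a, b, c, d⟩ := hf
  obtain ⟨T, a', b', c', d'⟩ := hg
  refine ⟨image2 (fun p q => (p.1 ∩ p.2 ⁻¹' q.1, q.2.comp p.2)) S T, a.image2 _ a', ?_, ?_, ?_⟩
  · rintro _ ⟨p, hp, q, hq, rfl⟩
    exact (b p hp).inter ((b' q hq).preimage _)
  · intro x hx
    obtain ⟨p, hp, h1⟩ := c x hx
    obtain ⟨q, hq, h2⟩ := c' _ (m x hx)
    exact ⟨_, ⟨p, hp, q, hq, rfl⟩, h1, by rwa [mem_preimage, ← d p hp x hx h1]⟩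
  · rintro _ ⟨p, hp, q, hq, rfl⟩ x hx ⟨h1, h2⟩
    have e := d p hp x hx h1
    simp only [AffineMap.comp_apply]
    rw [← e]
    exact d' q hq _ (m x hx) (by rwa [e])

lemma PL.prod {X : Set V} {f : V → W} {g : V → U} (hf : PL X f) (hg : PL X g) :
    PL X (fun x => (f x, g x)) := by
  obtain ⟨S, a, b, c, d⟩ := hf
  obtain ⟨T, a', b', c', d'⟩ := hg
  refine ⟨image2 (fun p q => (p.1 ∩ q.1, p.2.prod q.2)) S T, a.image2 _ a', ?_, ?_, ?_⟩
  · rintro _ ⟨p, hp, q, hq, rfl⟩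
    exact (b p hp).inter (b' q hq)
  · intro x hx
    obtain ⟨p, hp, h1⟩ := c x hx
    obtain ⟨q, hq, h2⟩ := c' _ hx
    exact ⟨_, ⟨p, hp, q, hq, rfl⟩, h1, h2⟩
  · rintro _ ⟨p, hp, q, hq, rfl⟩ x hx ⟨h1, h2⟩
    simp only [d p hp x hx h1, d' q hq x hx h2]
    rfl

lemma PL.cover2 {X P Q : Set V} {f : V → W} (hP : IsPoly P) (hQ : IsPoly Q)
    (c : ∀ x ∈ X, x ∈ P ∨ x ∈ Q) (h1 : PL (X ∩ P) f) (h2 : PL (X ∩ Q) f) : PL X f := by
  obtain ⟨S, a, b, c1, d⟩ := h1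
  obtain ⟨T, a', b', c2, d'⟩ := h2
  refine ⟨(fun p => (p.1 ∩ P, p.2)) '' S ∪ (fun p => (p.1 ∩ Q, p.2)) '' T,
    (a.image _).union (a'.image _), ?_, ?_, ?_⟩
  · rintro _ (⟨p, hp, rfl⟩ | ⟨p, hp, rfl⟩)
    · exact (b p hp).inter hP
    · exact (b' p hp).inter hQ
  · intro x hx
    rcases c x hx with h | h
    · obtain ⟨p, hp, e⟩ := c1 x ⟨hx, h⟩
      exact ⟨_, Or.inl ⟨p, hp, rfl⟩, e, h⟩
    · obtain ⟨p, hp, e⟩ := c2 x ⟨hx, h⟩
      exact ⟨_, Or.inr ⟨p, hp, rfl⟩, e, h⟩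
  · rintro _ (⟨p, hp, rfl⟩ | ⟨p, hp, rfl⟩) x hx ⟨e1, e2⟩
    · exact d p hp x ⟨hx, e2⟩ e1
    · exact d' p hp x ⟨hx, e2⟩ e1

lemma PL.lin {X : Set V} {f : V → W} (h : PL X f) (L : W →ₗ[ℝ] U) : PL X (fun x => L (f x)) :=
  (PL.affine univ L.toAffineMap).comp h (fun _ _ => trivial)

lemma PL.const (X : Set V) (c : W) : PL X (fun _ => c) := PL.affine X (AffineMap.const ℝ V c)

lemma PL.add {X : Set V} {f g : V → W} (hf : PL X f) (hg : PL X g) : PL X (fun x => f x + g x) :=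
  (hf.prod hg).lin (LinearMap.fst ℝ W W + LinearMap.snd ℝ W W)

lemma PL.sub {X : Set V} {f g : V → W} (hf : PL X f) (hg : PL X g) : PL X (fun x => f x - g x) :=
  (hf.prod hg).lin (LinearMap.fst ℝ W W - LinearMap.snd ℝ W W)

lemma PL.neg {X : Set V} {f : V → W} (hf : PL X f) : PL X (fun x => -f x) :=
  hf.lin (-LinearMap.id)

lemma PL.cmul {X : Set V} {f : V → ℝ} (hf : PL X f) (c : ℝ) : PL X (fun x => c * f x) :=
  hf.lin (c • LinearMap.id)

lemma PL.fst {X : Set V} {f : V → W × U} (hf : PL X f) : PL X (fun x => (f x).1) :=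
  hf.lin (LinearMap.fst ℝ W U)

lemma PL.snd {X : Set V} {f : V → W × U} (hf : PL X f) : PL X (fun x => (f x).2) :=
  hf.lin (LinearMap.snd ℝ W U)

lemma PL.id (X : Set V) : PL X (fun x => x) := PL.affine X (AffineMap.id ℝ V)

/-- split along the sign of a linear functional -/
lemma PL.split {X : Set V} {f : V → W} (l : V →ₗ[ℝ] ℝ) (h1 : PL (X ∩ {x | 0 ≤ l x}) f)
    (h2 : PL (X ∩ {x | 0 ≤ (-l) x}) f) : PL X f :=
  PL.cover2 (IsPoly.half l.toAffineMap) (IsPoly.half (-l).toAffineMap)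
    (fun x _ => (le_total 0 (l x)).imp (fun h => h) (fun h => by simpa using h)) h1 h2

lemma PL.max {X : Set V} {f g : V → ℝ} (hf : PL X f) (hg : PL X g) :
    PL X (fun x => max (f x) (g x)) := by
  have : PL (univ : Set (ℝ × ℝ)) (fun p => Max.max p.1 p.2) := by
    apply PL.split (LinearMap.fst ℝ ℝ ℝ - LinearMap.snd ℝ ℝ ℝ)
    · exact (PL.id _).fst.congr fun x hx => max_eq_left (by simpa using hx.2)
    · exact (PL.id _).snd.congr fun x hx => max_eq_right (by simpa using hx.2)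
  exact this.comp (hf.prod hg) (fun _ _ => trivial)

lemma PL.min {X : Set V} {f g : V → ℝ} (hf : PL X f) (hg : PL X g) :
    PL X (fun x => min (f x) (g x)) :=
  (hf.neg.max hg.neg).neg.congr fun x _ => by rw [max_neg_neg, neg_neg]

lemma PL.abs {X : Set V} {f : V → ℝ} (hf : PL X f) : PL X (fun x => |f x|) :=
  (hf.max hf.neg).congr fun _ _ => abs_eq_max_neg

end poly

section fin
variable {n : ℕ}

lemma IsPoly.closed {P : Set (Fin n → ℝ)} (h : IsPoly P) : IsClosed P := by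
  obtain ⟨L, -, rfl⟩ := h
  simp only [setOf_forall]
  exact isClosed_iInter fun l => isClosed_iInter fun _ =>
    isClosed_le continuous_const l.continuous_of_finiteDimensional

lemma IsPoly.hull {P : Set (Fin n → ℝ)} (h : IsPoly P) (hb : IsCompact P) :
    ∃ s : Finset (Fin n → ℝ), P = convexHull ℝ (s : Set (Fin n → ℝ)) := by
  obtain ⟨L, hL, rfl⟩ := h
  set P := {x | ∀ l ∈ L, 0 ≤ l x} with hP
  have cv : Convex ℝ P := by
    simp only [hP, setOf_forall]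
    exact convex_iInter fun l => convex_iInter fun _ => (convex_Ici 0).affine_preimage l
  have fin : (P.extremePoints ℝ).Finite := by
    apply Finite.of_finite_image (f := fun x => {l ∈ L | l x = 0})
      (hL.finite_subsets.subset (by rintro _ ⟨x, -, rfl⟩; exact sep_subset _ _))
    intro x hx y hy e
    simp only at e
    have ev : ∀ᶠ t in nhdsWithin (0:ℝ) (Ioi 0), ∀ l ∈ L, 0 ≤ l (AffineMap.lineMap x y (-t)) := by
      rw [Filter.eventually_all_finite hL]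
      intro l hl
      simp only [AffineMap.apply_lineMap, AffineMap.lineMap_apply_ring']
      by_cases z : l x = 0
      · have : l ∈ {l ∈ L | l y = 0} := e ▸ (⟨hl, z⟩ : l ∈ {l ∈ L | l x = 0})
        simp [z, this.2]
      · have p : 0 < l x := lt_of_le_of_ne (hx.1 l hl) (Ne.symm z)
        have c : Continuous fun t : ℝ => -t * (l y - l x) + l x := by fun_prop
        have := (c.tendsto 0).eventually (lt_mem_nhds (show 0 < -0 * (l y - l x) + l x by simpa))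
        exact (this.filter_mono nhdsWithin_le_nhds).mono fun t ht => ht.le
    obtain ⟨t, ht, t0⟩ := (ev.and self_mem_nhdsWithin).exists
    have t0' : 0 < t := t0
    have := hx.2 (x₁ := y) hy.1 (x₂ := AffineMap.lineMap x y (-t)) ht
      ⟨t / (1 + t), 1 / (1 + t), by positivity, by positivity, by field_simp; ring, by
        ext i
        simp only [AffineMap.lineMap_apply_module, Pi.add_apply, Pi.smul_apply, smul_eq_mul]
        field_simp; ring⟩
    exact this.symm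
  refine ⟨fin.toFinset, ?_⟩
  rw [fin.coe_toFinset, ← (fin.isClosed_convexHull ℝ).closure_eq,
    closure_convexHull_extremePoints hb cv]

lemma cube_poly : IsPoly (Metric.closedBall (0 : Fin n → ℝ) 1) := by
  refine ⟨range (fun i => AffineMap.const ℝ _ (1:ℝ) - (LinearMap.proj i).toAffineMap) ∪
    range (fun i => AffineMap.const ℝ _ (1:ℝ) + (LinearMap.proj i).toAffineMap),
    (finite_range _).union (finite_range _), ?_⟩
  ext x
  simp only [mem_closedBall_zero_iff, pi_norm_le_iff_of_nonneg zero_le_one, Real.norm_eq_abs,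
    abs_le, mem_setOf_eq, mem_union, or_imp, forall_and, forall_mem_range]
  simp
  constructor <;> rintro ⟨a, b⟩ <;> constructor <;> intro i <;> linarith [a i, b i]

lemma PL.out {f : (Fin n → ℝ) → (Fin n → ℝ)} (h : PL (Metric.sphere 0 1) f) :
    ContinuousOn f (Metric.sphere 0 1) ∧ ∃ m : ℕ, ∃ C : Fin m → Set (Fin n → ℝ),
      ∃ A : Fin m → ((Fin n → ℝ) →ᵃ[ℝ] (Fin n → ℝ)),
        (∀ j, ∃ s : Finset (Fin n → ℝ), C j = convexHull ℝ (↑s : Set (Fin n → ℝ))) ∧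
        (∀ x ∈ Metric.sphere (0 : Fin n → ℝ) 1, ∃ j, x ∈ C j) ∧
        (∀ j, ∀ x ∈ Metric.sphere (0 : Fin n → ℝ) 1, x ∈ C j → f x = A j x) := by
  obtain ⟨S, a, b, c, d⟩ := h
  haveI := a.to_subtype
  constructor
  · have e : Metric.sphere (0 : Fin n → ℝ) 1 = ⋃ p : S, Metric.sphere 0 1 ∩ p.1.1 := by
      ext x
      simp only [mem_iUnion, mem_inter_iff]
      exact ⟨fun hx => let ⟨p, hp, h⟩ := c x hx; ⟨⟨p, hp⟩, hx, h⟩, fun ⟨_, h, _⟩ => h⟩
    rw [e]
    apply (locallyFinite_of_finite _).continuousOn_iUnion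
      (fun p => Metric.isClosed_sphere.inter (b _ p.2).closed)
    intro p
    exact p.1.2.continuous_of_finiteDimensional.continuousOn.congr
      fun x hx => d _ p.2 x hx.1 hx.2
  · obtain ⟨m, ⟨e⟩⟩ := Finite.exists_equiv_fin S
    refine ⟨m, fun j => (e.symm j).1.1 ∩ Metric.closedBall 0 1, fun j => (e.symm j).1.2, ?_, ?_, ?_⟩
    · intro j
      exact ((b _ (e.symm j).2).inter cube_poly).hull
        ((isCompact_closedBall _ _).inter_left (b _ (e.symm j).2).closed)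
    · intro x hx
      obtain ⟨p, hp, h⟩ := c x hx
      exact ⟨e ⟨p, hp⟩, by simpa using h, Metric.sphere_subset_closedBall hx⟩
    · intro j x hx h
      exact d _ (e.symm j).2 x hx h.1

end fin

end Pool.Agent.H.MP_0f8bf3_al
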