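import Pool.Agent.H.MP_0f8bf3_al.A

open Set

namespace Pool.Agent.H.MP_0f8bf3_al

noncomputable def H (u : ℝ) : ℝ := max (-1) (min 1 (2 - |u|))

lemma H_far {u : ℝ} (h : 3 ≤ |u|) : H u = -1 :=
  max_eq_left ((min_le_right _ _).trans (by linarith))

lemma H_mid {u : ℝ} (h : |u| ≤ 1) : H u = 1 := by
  rw [H, min_eq_left (by linarith), max_eq_right (by norm_num)]

lemma H_sl {u : ℝ} (h1 : 1 ≤ |u|) (h2 : |u| ≤ 3) : H u = 2 - |u| := by
  rw [H, min_eq_right (by linarith), max_eq_right (by linarith)]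

lemma H_ge (u : ℝ) : -1 ≤ H u := le_max_left _ _

noncomputable def h (s : ℝ) : ℝ := H (s - 8 * round (s / 8))

lemma rnd (s : ℝ) : |s - 8 * round (s / 8)| ≤ 4 := by
  have := abs_sub_round (s / 8)
  rw [abs_le] at this ⊢
  constructor <;> linarith [this.1, this.2]

lemma hloc (j : ℤ) (s : ℝ) (hs : |s - 8 * j| ≤ 5) : h s = H (s - 8 * j) := by
  have r := rnd s
  unfold h
  set k := round (s / 8)
  rcases lt_trichotomy j k with c | c | c
  · have : (j:ℝ) + 1 ≤ k := by exact_mod_cast c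
    rw [abs_le] at r hs
    rw [H_far (le_abs.2 (Or.inr (by linarith))), H_far (le_abs.2 (Or.inl (by linarith)))]
  · rw [c]
  · have : (k:ℝ) + 1 ≤ j := by exact_mod_cast c
    rw [abs_le] at r hs
    rw [H_far (le_abs.2 (Or.inl (by linarith))), H_far (le_abs.2 (Or.inr (by linarith)))]

lemma hloc0 (s : ℝ) (hs : |s| ≤ 5) : h s = H s := by simpa using hloc 0 s (by simpa using hs)

lemma h_per (s : ℝ) (j : ℤ) : h (s + 8 * j) = h s := by
  have e : s + 8 * j - 8 * ((round (s / 8) + j : ℤ) : ℝ) = s - 8 * round (s / 8) := by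
    push_cast; ring
  rw [hloc (round (s / 8) + j) _ (by rw [e]; linarith [rnd s]), e, h]

noncomputable def γ (s : ℝ) : ℝ × ℝ := (h s, h (s - 2))

lemma γ_per (s : ℝ) (j : ℤ) : γ (s + 8 * j) = γ s := by
  rw [γ, γ, h_per, show s + 8 * j - 2 = s - 2 + 8 * j by ring, h_per]

lemma hp {s : ℝ} (a : 1 ≤ s) (b : s ≤ 3) : h s = 2 - s := by
  have := abs_of_nonneg (show 0 ≤ s by linarith)
  rw [hloc0 _ (by linarith), H_sl (by linarith) (by linarith), this]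

lemma hn {s : ℝ} (a : -3 ≤ s) (b : s ≤ -1) : h s = 2 + s := by
  have := abs_of_nonpos (show s ≤ 0 by linarith)
  rw [hloc0 _ (by linarith), H_sl (by linarith) (by linarith), this]; ring

lemma hm {s : ℝ} (a : -1 ≤ s) (b : s ≤ 1) : h s = 1 := by
  have := abs_le.2 ⟨a, b⟩
  rw [hloc0 _ (by linarith), H_mid this]

lemma hfp {s : ℝ} (a : 3 ≤ s) (b : s ≤ 5) : h s = -1 := by
  have := abs_of_nonneg (show 0 ≤ s by linarith)
  rw [hloc0 _ (by linarith), H_far (by linarith)]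

lemma hfn {s : ℝ} (a : -5 ≤ s) (b : s ≤ -3) : h s = -1 := by
  have := abs_of_nonpos (show s ≤ 0 by linarith)
  rw [hloc0 _ (by linarith), H_far (by linarith)]

lemma γ0 {u : ℝ} (a : -1 ≤ u) (b : u ≤ 1) : γ (0 + u) = (1, u) := by
  rw [γ, hm (by linarith) (by linarith), hn (by linarith) (by linarith)]; congr 1; ring

lemma γ1 {u : ℝ} (a : -1 ≤ u) (b : u ≤ 1) : γ (2 + u) = (-u, 1) := by
  rw [γ, hp (by linarith) (by linarith), hm (by linarith) (by linarith)]; congr 1; ring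

lemma γ2 {u : ℝ} (a : -1 ≤ u) (b : u ≤ 1) : γ (4 + u) = (-1, -u) := by
  rw [γ, hfp (by linarith) (by linarith), hp (by linarith) (by linarith)]; congr 1; ring

lemma γ3 {u : ℝ} (a : -1 ≤ u) (b : u ≤ 1) : γ (-2 + u) = (u, -1) := by
  rw [γ, hn (by linarith) (by linarith), hfn (by linarith) (by linarith)]; congr 1; ring

lemma decomp (s : ℝ) : ∃ j : ℤ, ∃ u : ℝ, -1 ≤ u ∧ u < 1 ∧
    ((s = u + 8 * j ∧ γ s = (1, u)) ∨ (s = 2 + u + 8 * j ∧ γ s = (-u, 1)) ∨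
      (s = 4 + u + 8 * j ∧ γ s = (-1, -u)) ∨ (s = -2 + u + 8 * j ∧ γ s = (u, -1))) := by
  obtain ⟨j, v, a, b, rfl⟩ : ∃ j : ℤ, ∃ v : ℝ, -3 ≤ v ∧ v < 5 ∧ s = v + 8 * j :=
    ⟨⌊(s + 3) / 8⌋, s - 8 * ⌊(s + 3) / 8⌋, by linarith [Int.floor_le ((s + 3) / 8)],
      by linarith [Int.lt_floor_add_one ((s + 3) / 8)], by ring⟩
  rw [γ_per]
  by_cases c1 : v < -1
  · refine ⟨j, v + 2, by linarith, by linarith, Or.inr (Or.inr (Or.inr ⟨by ring, ?_⟩))⟩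
    rw [← γ3 (by linarith) (by linarith)]; congr 1; ring
  by_cases c2 : v < 1
  · refine ⟨j, v, by linarith, by linarith, Or.inl ⟨by ring, ?_⟩⟩
    rw [← γ0 (by linarith) (by linarith)]; congr 1; ring
  by_cases c3 : v < 3
  · refine ⟨j, v - 2, by linarith, by linarith, Or.inr (Or.inl ⟨by ring, ?_⟩)⟩
    rw [← γ1 (by linarith) (by linarith)]; congr 1; ring
  · refine ⟨j, v - 4, by linarith, by linarith, Or.inr (Or.inr (Or.inl ⟨by ring, ?_⟩))⟩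
    rw [← γ2 (by linarith) (by linarith)]; congr 1; ring

lemma γ_norm (s : ℝ) : ‖γ s‖ = 1 := by
  obtain ⟨j, u, a, b, c⟩ := decomp s
  have : |u| ≤ 1 := abs_le.2 ⟨a, b.le⟩
  rcases c with ⟨-, e⟩ | ⟨-, e⟩ | ⟨-, e⟩ | ⟨-, e⟩ <;> rw [e] <;> simp [Prod.norm_def, this]

lemma γ_inj {s t : ℝ} (e : γ s = γ t) : ∃ j : ℤ, s = t + 8 * j := by
  obtain ⟨j, u, a, b, c⟩ := decomp s
  obtain ⟨k, v, a', b', c'⟩ := decomp t
  refine ⟨j - k, ?_⟩
  push_cast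
  rcases c with ⟨c, d⟩ | ⟨c, d⟩ | ⟨c, d⟩ | ⟨c, d⟩ <;>
    rcases c' with ⟨c', d'⟩ | ⟨c', d'⟩ | ⟨c', d'⟩ | ⟨c', d'⟩ <;>
    (rw [d, d', Prod.mk.injEq] at e; linarith [e.1, e.2])

lemma ex_u {r v : ℝ} (a : -r ≤ v) (b : v ≤ r) : ∃ u, -1 ≤ u ∧ u ≤ 1 ∧ r * u = v := by
  rcases eq_or_lt_of_le (show 0 ≤ r by linarith) with c | c
  · exact ⟨0, by norm_num, by norm_num, by linarith⟩
  · exact ⟨v / r, by rw [le_div_iff₀ c]; linarith, by rw [div_le_iff₀ c]; linarith,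
      by field_simp⟩

lemma nrm {r : ℝ} (hr : 0 ≤ r) (s : ℝ) : ‖r • γ s‖ = r := by
  rw [norm_smul, γ_norm, mul_one, Real.norm_eq_abs, abs_of_nonneg hr]

lemma c0 {x : ℝ × ℝ} (a : 0 ≤ x.1 - x.2) (b : 0 ≤ x.1 + x.2) :
    ∃ u, -1 ≤ u ∧ u ≤ 1 ∧ x.1 * u = x.2 ∧ x = x.1 • γ (0 + u) := by
  obtain ⟨u, p, q, e⟩ := ex_u (r := x.1) (v := x.2) (by linarith) (by linarith)
  exact ⟨u, p, q, e, by rw [γ0 p q]; ext <;> simp [e]⟩

lemma c1 {x : ℝ × ℝ} (a : x.1 - x.2 ≤ 0) (b : 0 ≤ x.1 + x.2) :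
    ∃ u, -1 ≤ u ∧ u ≤ 1 ∧ x.2 * u = -x.1 ∧ x = x.2 • γ (2 + u) := by
  obtain ⟨u, p, q, e⟩ := ex_u (r := x.2) (v := -x.1) (by linarith) (by linarith)
  exact ⟨u, p, q, e, by rw [γ1 p q]; ext <;> simp [e]⟩

lemma c2 {x : ℝ × ℝ} (a : x.1 - x.2 ≤ 0) (b : x.1 + x.2 ≤ 0) :
    ∃ u, -1 ≤ u ∧ u ≤ 1 ∧ -x.1 * u = -x.2 ∧ x = (-x.1) • γ (4 + u) := by
  obtain ⟨u, p, q, e⟩ := ex_u (r := -x.1) (v := -x.2) (by linarith) (by linarith)
  exact ⟨u, p, q, e, by rw [γ2 p q]; ext <;> simp; linarith⟩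

lemma c3 {x : ℝ × ℝ} (a : 0 ≤ x.1 - x.2) (b : x.1 + x.2 ≤ 0) :
    ∃ u, -1 ≤ u ∧ u ≤ 1 ∧ -x.2 * u = x.1 ∧ x = (-x.2) • γ (-2 + u) := by
  obtain ⟨u, p, q, e⟩ := ex_u (r := -x.2) (v := x.1) (by linarith) (by linarith)
  exact ⟨u, p, q, e, by rw [γ3 p q]; ext <;> simp; linarith⟩

lemma pol (x : ℝ × ℝ) : ∃ r s : ℝ, 0 ≤ r ∧ x = r • γ s := by
  rcases le_total 0 (x.1 - x.2) with a | a <;> rcases le_total 0 (x.1 + x.2) with b | b
  · obtain ⟨u, -, -, -, e⟩ := c0 a b; exact ⟨x.1, _, by linarith, e⟩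
  · obtain ⟨u, -, -, -, e⟩ := c3 a b; exact ⟨-x.2, _, by linarith, e⟩
  · obtain ⟨u, -, -, -, e⟩ := c1 a b; exact ⟨x.2, _, by linarith, e⟩
  · obtain ⟨u, -, -, -, e⟩ := c2 a b; exact ⟨-x.1, _, by linarith, e⟩

lemma surj (x : ℝ × ℝ) : ∃ s, ‖x‖ • γ s = x := by
  obtain ⟨r, s, hr, rfl⟩ := pol x
  exact ⟨s, by rw [nrm hr]⟩

noncomputable def ρ (θ : ℝ) (x : ℝ × ℝ) : ℝ × ℝ := ‖x‖ • γ (Classical.choose (surj x) + θ)

lemma ρ_eq {r : ℝ} (hr : 0 ≤ r) (s θ : ℝ) : ρ θ (r • γ s) = r • γ (s + θ) := by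
  have e := Classical.choose_spec (surj (r • γ s))
  unfold ρ
  generalize Classical.choose (surj (r • γ s)) = t at e ⊢
  rw [nrm hr] at e ⊢
  rcases eq_or_lt_of_le hr with c | c
  · rw [← c]; simp
  · obtain ⟨j, rfl⟩ := γ_inj (smul_right_injective _ c.ne' e)
    rw [show s + 8 * j + θ = s + θ + 8 * j by ring, γ_per]

lemma ρ_norm (θ : ℝ) (x : ℝ × ℝ) : ‖ρ θ x‖ = ‖x‖ := nrm (norm_nonneg _) _

lemma ρ_add (a b : ℝ) (x : ℝ × ℝ) : ρ a (ρ b x) = ρ (a + b) x := by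
  obtain ⟨r, s, hr, rfl⟩ := pol x
  rw [ρ_eq hr, ρ_eq hr, ρ_eq hr]; congr 2; ring

lemma ρ_zero (x : ℝ × ℝ) : ρ 0 x = x := by
  obtain ⟨r, s, hr, rfl⟩ := pol x
  rw [ρ_eq hr, add_zero]

lemma ρ_fix {θ : ℝ} (e : ρ θ (γ 0) = γ 0) : ∃ j : ℤ, θ = 8 * j := by
  have := ρ_eq zero_le_one 0 θ
  rw [one_smul, one_smul, e] at this
  simpa using γ_inj this.symm

noncomputable def G (r v : ℝ) : ℝ := max (-r) (min r (2 * r - |v|))

lemma G_eq {r : ℝ} (hr : 0 ≤ r) (s : ℝ) : r * H s = G r (r * s) := by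
  rw [H, G, mul_max_of_nonneg _ _ hr, mul_min_of_nonneg _ _ hr, abs_mul, abs_of_nonneg hr]
  congr 2 <;> ring

noncomputable def hh (r v : ℝ) : ℝ := max (max (G r (v + 8 * r)) (G r v)) (G r (v - 8 * r))

lemma h_max {s : ℝ} (a : -12 ≤ s) (b : s ≤ 12) :
    h s = max (max (H (s + 8)) (H s)) (H (s - 8)) := by
  by_cases c1 : s ≤ -4
  · rw [H_far (u := s) (le_abs.2 (Or.inr (by linarith))),
      H_far (u := s - 8) (le_abs.2 (Or.inr (by linarith))), max_eq_left (H_ge _),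
      max_eq_left (H_ge _), hloc (-1) s (abs_le.2 ⟨by push_cast; linarith, by push_cast; linarith⟩)]
    congr 1; push_cast; ring
  by_cases c2 : s ≤ 4
  · rw [H_far (u := s + 8) (le_abs.2 (Or.inl (by linarith))),
      H_far (u := s - 8) (le_abs.2 (Or.inr (by linarith))), max_eq_right (H_ge _),
      max_eq_left (H_ge _), hloc0 s (abs_le.2 ⟨by linarith, by linarith⟩)]
  · rw [H_far (u := s + 8) (le_abs.2 (Or.inl (by linarith))),
      H_far (u := s) (le_abs.2 (Or.inl (by linarith))), max_self,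
      max_eq_right (H_ge _), hloc 1 s (abs_le.2 ⟨by push_cast; linarith, by push_cast; linarith⟩)]
    congr 1; push_cast; ring

lemma hh_eq {r s : ℝ} (hr : 0 ≤ r) (a : -12 ≤ s) (b : s ≤ 12) : r * h s = hh r (r * s) := by
  rw [h_max a b, mul_max_of_nonneg _ _ hr, mul_max_of_nonneg _ _ hr, G_eq hr, G_eq hr, G_eq hr, hh]
  congr 3 <;> ring

section
variable {V : Type} [AddCommGroup V] [Module ℝ V]

lemma PL.G {X : Set V} {f g : V → ℝ} (hf : PL X f) (hg : PL X g) :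
    PL X (fun x => G (f x) (g x)) := hf.neg.max (hf.min ((hf.cmul 2).sub hg.abs))

lemma PL.hh {X : Set V} {f g : V → ℝ} (hf : PL X f) (hg : PL X g) :
    PL X (fun x => hh (f x) (g x)) :=
  ((hf.G (hg.add (hf.cmul 8))).max (hf.G hg)).max (hf.G (hg.sub (hf.cmul 8)))

lemma cone {X : Set ((ℝ × ℝ) × ℝ)} {r v : (ℝ × ℝ) × ℝ → ℝ} (c : ℝ) (c1 : -2 ≤ c) (c2 : c ≤ 4)
    (hr : PL X r) (hv : PL X v) (hX : ∀ p ∈ X, |p.2| ≤ ‖p.1‖ ∧ 0 ≤ r p ∧
      ∃ u, -1 ≤ u ∧ u ≤ 1 ∧ r p * u = v p ∧ p.1 = r p • γ (c + u)) :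
    PL X (fun p => ρ (p.2 / ‖p.1‖) p.1) := by
  have w : PL X (fun p => p.2) := (PL.id X).snd
  refine ((hr.hh (((hr.cmul c).add hv).add w)).prod
    (hr.hh (((hr.cmul (c - 2)).add hv).add w))).congr ?_
  intro p hp
  obtain ⟨a, b, u, u1, u2, e1, e2⟩ := hX p hp
  have n : ‖p.1‖ = r p := by rw [e2, nrm b]
  rw [n] at a ⊢
  obtain ⟨t, t1, t2, e3⟩ := ex_u (abs_le.1 a).1 (abs_le.1 a).2
  have e4 : ρ (p.2 / r p) p.1 = r p • γ (c + u + t) := by
    conv_lhs => rw [e2]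
    rw [ρ_eq b]
    rcases eq_or_lt_of_le b with z | z
    · rw [← z]; simp
    · rw [← e3, mul_div_cancel_left₀ _ z.ne']
  rw [e4, γ, Prod.smul_mk, smul_eq_mul, smul_eq_mul, hh_eq b (by linarith) (by linarith),
    hh_eq b (by linarith) (by linarith), ← e1, ← e3]
  congr 2 <;> ring

lemma PL_Φ : PL {p : (ℝ × ℝ) × ℝ | |p.2| ≤ ‖p.1‖} (fun p => ρ (p.2 / ‖p.1‖) p.1) := by
  have a := fun X : Set ((ℝ × ℝ) × ℝ) => (PL.id X).fst.fst
  have b := fun X : Set ((ℝ × ℝ) × ℝ) => (PL.id X).fst.snd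
  apply PL.split ((LinearMap.fst ℝ ℝ ℝ - LinearMap.snd ℝ ℝ ℝ).comp (LinearMap.fst ℝ _ ℝ)) <;>
    apply PL.split ((LinearMap.fst ℝ ℝ ℝ + LinearMap.snd ℝ ℝ ℝ).comp (LinearMap.fst ℝ _ ℝ))
  · refine cone 0 (by norm_num) (by norm_num) (a _) (b _) ?_
    rintro p ⟨⟨h1, h2⟩, h3⟩
    simp at h2 h3
    exact ⟨h1, by linarith, c0 (by linarith) (by linarith)⟩
  · refine cone (-2) (by norm_num) (by norm_num) (b _).neg (a _) ?_
    rintro p ⟨⟨h1, h2⟩, h3⟩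
    simp at h2 h3
    exact ⟨h1, by linarith, c3 (by linarith) (by linarith)⟩
  · refine cone 2 (by norm_num) (by norm_num) (b _) (a _).neg ?_
    rintro p ⟨⟨h1, h2⟩, h3⟩
    simp at h2 h3
    exact ⟨h1, by linarith, c1 (by linarith) (by linarith)⟩
  · refine cone 4 (by norm_num) (by norm_num) (a _).neg (b _).neg ?_
    rintro p ⟨⟨h1, h2⟩, h3⟩
    simp at h2 h3
    exact ⟨h1, by linarith, c2 (by linarith) (by linarith)⟩

lemma PL.norm {X : Set V} {x : V → ℝ × ℝ} (hx : PL X x) : PL X (fun z => ‖x z‖) :=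
  hx.fst.abs.max hx.snd.abs

lemma PL.ρ {X : Set V} {x : V → ℝ × ℝ} {θ : V → ℝ} (hx : PL X x)
    (hθ : PL X (fun z => θ z * ‖x z‖)) (b : ∀ z ∈ X, |θ z| ≤ 1) :
    PL X (fun z => ρ (θ z) (x z)) := by
  refine (PL_Φ.comp (hx.prod hθ) ?_).congr ?_
  · intro z hz
    simp only [mem_setOf_eq, abs_mul, abs_norm]
    exact mul_le_of_le_one_left (norm_nonneg _) (b z hz)
  · intro z _
    simp only
    by_cases c : ‖x z‖ = 0
    · simp [MP_0f8bf3_al.ρ, c]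
    · rw [mul_div_cancel_right₀ _ c]

end

lemma kink {s : ℝ} (hs : ∀ k : ℤ, s ≠ 2 * k + 1) :
    ∀ᶠ ε in nhdsWithin (0:ℝ) (Ioi 0), h (s + ε) + h (s - ε) - 2 * h s = 0 := by
  obtain ⟨j, u, a, b, c⟩ := decomp s
  have a' : -1 < u := by
    refine lt_of_le_of_ne a ?_
    rintro rfl
    rcases c with ⟨c, -⟩ | ⟨c, -⟩ | ⟨c, -⟩ | ⟨c, -⟩
    · exact hs (4 * j - 1) (by rw [c]; push_cast; ring)
    · exact hs (4 * j) (by rw [c]; push_cast; ring)
    · exact hs (4 * j + 1) (by rw [c]; push_cast; ring)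
    · exact hs (4 * j - 2) (by rw [c]; push_cast; ring)
  filter_upwards [Ioo_mem_nhdsGT (show (0:ℝ) < min (1 - u) (1 + u) from
    lt_min (by linarith) (by linarith))] with ε hε
  have e0 := hε.1
  have e1 := hε.2.trans_le (min_le_left _ _)
  have e2 := hε.2.trans_le (min_le_right _ _)
  have k : ∀ v, s = v + 8 * j → h (s + ε) + h (s - ε) - 2 * h s =
      h (v + ε) + h (v - ε) - 2 * h v := by
    rintro v rfl
    rw [show v + 8 * j + ε = v + ε + 8 * j by ring, show v + 8 * j - ε = v - ε + 8 * j by ring,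
      h_per, h_per, h_per]
  rcases c with ⟨c, -⟩ | ⟨c, -⟩ | ⟨c, -⟩ | ⟨c, -⟩ <;> rw [k _ c]
  · rw [hm (by linarith) (by linarith), hm (by linarith) (by linarith),
      hm (by linarith) (by linarith)]; ring
  · rw [hp (by linarith) (by linarith), hp (by linarith) (by linarith),
      hp (by linarith) (by linarith)]; ring
  · rw [hfp (by linarith) (by linarith), hfp (by linarith) (by linarith),
      hfp (by linarith) (by linarith)]; ring
  · rw [hn (by linarith) (by linarith), hn (by linarith) (by linarith),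
      hn (by linarith) (by linarith)]; ring

lemma indep {ι : Type} (a : ι → ℝ) (ha : ∀ i j, ∀ k : ℤ, a i - a j = 2 * k → i = j)
    (f : ι →₀ ℤ) (hf : ∀ s, ∑ w ∈ f.support, (f w : ℝ) * h (s - a w) = 0) : f = 0 := by
  classical
  ext i
  by_contra c
  have hi : i ∈ f.support := Finsupp.mem_support_iff.2 c
  have ev : ∀ᶠ ε in nhdsWithin (0:ℝ) (Ioi 0), ∀ w ∈ f.support, w ≠ i →
      h (a i + 1 - a w + ε) + h (a i + 1 - a w - ε) - 2 * h (a i + 1 - a w) = 0 := by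
    rw [Finset.eventually_all]
    intro w _
    by_cases e : w = i
    · simp [e]
    · exact (kink fun k hk => e (ha i w k (by linarith)).symm).mono fun _ h _ => h
  obtain ⟨ε, h1, h2⟩ := (ev.and (Ioo_mem_nhdsGT (show (0:ℝ) < 1 by norm_num))).exists
  have s : ∑ w ∈ f.support, (f w : ℝ) * (h (a i + 1 - a w + ε) + h (a i + 1 - a w - ε)
      - 2 * h (a i + 1 - a w)) = 0 := by
    have e1 := hf (a i + 1 + ε)
    have e2 := hf (a i + 1 - ε)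
    have e3 := hf (a i + 1)
    simp only [mul_sub, mul_add, Finset.sum_sub_distrib, Finset.sum_add_distrib, mul_left_comm _ (2:ℝ),
      ← Finset.mul_sum, e3]
    simp only [add_sub_right_comm _ ε, sub_right_comm _ ε] at e1 e2
    rw [e1, e2]; ring
  rw [Finset.sum_eq_single_of_mem i hi (fun w hw ne => by rw [h1 w hw ne, mul_zero])] at s
  have e0 := h2.1
  have e1 := h2.2
  rw [hp (by linarith) (by linarith), hm (by linarith) (by linarith),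
    hm (by linarith) (by linarith)] at s
  have : (f i : ℝ) ≠ 0 := by exact_mod_cast c
  have := (mul_eq_zero.1 s).resolve_left this
  linarith

end Pool.Agent.H.MP_0f8bf3_al
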