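import Pool.Agent.H.MP_0f8bf3_al.B

open Set

namespace Pool.Agent.H.MP_0f8bf3_al

abbrev V := Fin 4 → ℝ
abbrev T := Fin 4 → ℤ

def yy : V →ₗ[ℝ] ℝ × ℝ := (LinearMap.proj 0).prod (LinearMap.proj 1)
def xx : V →ₗ[ℝ] ℝ × ℝ := (LinearMap.proj 2).prod (LinearMap.proj 3)
def mk : (ℝ × ℝ) × (ℝ × ℝ) →ₗ[ℝ] V where
  toFun p := ![p.1.1, p.1.2, p.2.1, p.2.2]
  map_add' p q := by ext i; fin_cases i <;> rfl
  map_smul' c p := by ext i; fin_cases i <;> rfl

lemma yy_mk (p q : ℝ × ℝ) : yy (mk (p, q)) = p := rfl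
lemma xx_mk (p q : ℝ × ℝ) : xx (mk (p, q)) = q := rfl
lemma mk_eta (z : V) : mk (yy z, xx z) = z := by ext i; fin_cases i <;> rfl

lemma mk_norm (p q : ℝ × ℝ) : ‖mk (p, q)‖ = max ‖p‖ ‖q‖ := by
  apply le_antisymm
  · rw [pi_norm_le_iff_of_nonneg (by positivity)]
    intro i
    fin_cases i
    · exact (norm_fst_le p).trans (le_max_left _ _)
    · exact (norm_snd_le p).trans (le_max_left _ _)
    · exact (norm_fst_le q).trans (le_max_right _ _)
    · exact (norm_snd_le q).trans (le_max_right _ _)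
  · exact max_le (max_le (norm_le_pi_norm (mk (p, q)) 0) (norm_le_pi_norm (mk (p, q)) 1))
      (max_le (norm_le_pi_norm (mk (p, q)) 2) (norm_le_pi_norm (mk (p, q)) 3))

lemma norm_eq (z : V) : ‖z‖ = max ‖yy z‖ ‖xx z‖ := by rw [← mk_norm, mk_eta]

noncomputable def F (t : ℝ) (θ : ℝ × ℝ → ℝ) (z : V) : V := mk (ρ t (yy z), ρ (θ (yy z)) (xx z))

lemma F_norm (t : ℝ) (θ : ℝ × ℝ → ℝ) (z : V) : ‖F t θ z‖ = ‖z‖ := by
  rw [F, mk_norm, ρ_norm, ρ_norm, norm_eq]

noncomputable def φ (p : ℝ × ℝ) : ℝ := max (-(1 - ‖p‖)) (min (1 - ‖p‖) p.1)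

lemma φ_le {p : ℝ × ℝ} (h : ‖p‖ ≤ 1) : |φ p| ≤ 1 - ‖p‖ :=
  abs_le.2 ⟨le_max_left _ _, max_le (by linarith) (min_le_left _ _)⟩

lemma φ_small {p : ℝ × ℝ} (h : ‖p‖ ≤ 1 / 2) : φ p = p.1 := by
  have := abs_le.1 ((norm_fst_le p).trans h)
  rw [φ, min_eq_right (by linarith), max_eq_right (by linarith)]

lemma F_PL {t c : ℝ} (ht : |t| ≤ 1) (hc : |c| ≤ 1) :
    PL (Metric.sphere 0 1) (F t (fun p => c * φ p)) := by
  have y := (PL.id (Metric.sphere (0:V) 1)).lin yy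
  have x := (PL.id (Metric.sphere (0:V) 1)).lin xx
  have o := (PL.const (Metric.sphere (0:V) 1) (1:ℝ)).sub y.norm
  have f : PL (Metric.sphere (0:V) 1) (fun z => φ (yy z)) := o.neg.max (o.min y.fst)
  have n : ∀ z ∈ Metric.sphere (0:V) 1, max ‖yy z‖ ‖xx z‖ = 1 := fun z hz => by
    rw [← norm_eq]; simpa using hz
  refine ((y.ρ (θ := fun _ => t) (y.norm.cmul t) fun _ _ => ht).prod
    (x.ρ (θ := fun z => c * φ (yy z)) ((f.cmul c).congr fun z hz => ?_) fun z hz => ?_)).lin mk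
  · have l := φ_le ((le_max_left _ _).trans (n z hz).le)
    rcases max_eq_iff.1 (n z hz) with ⟨e, -⟩ | ⟨e, -⟩
    · rw [e, sub_self] at l
      rw [abs_nonpos_iff.1 l]; ring
    · rw [e, mul_one]
  · have l := φ_le ((le_max_left _ _).trans (n z hz).le)
    rw [abs_mul]
    exact mul_le_one₀ hc (abs_nonneg _) (by linarith [norm_nonneg (yy z)])

lemma ex_α : ∃ α : Fin 4 → ℝ, (∀ i, |α i| ≤ 1) ∧
    ∀ (w : T) (k : ℤ), ∑ i, (w i : ℝ) * α i = k → w = 0 := by
  have tr := transcendental_liouvilleNumber (m := 2) le_rfl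
  set c := liouvilleNumber (2:ℕ)
  refine ⟨fun i => Int.fract (c ^ (i.1 + 1)), fun i => ?_, fun w k e => ?_⟩
  · rw [abs_of_nonneg (Int.fract_nonneg _)]; exact (Int.fract_lt_one _).le
  · have := (transcendental_iff.1 tr) (∑ i : Fin 4, Polynomial.monomial (i.1 + 1) (w i)
      - Polynomial.C (k + ∑ i : Fin 4, w i * ⌊c ^ (i.1 + 1)⌋)) (by
        rw [map_sub, Polynomial.aeval_C]
        simp only [map_sum, Polynomial.aeval_monomial, algebraMap_int_eq, eq_intCast]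
        simp only [Int.fract, mul_sub, Finset.sum_sub_distrib] at e
        push_cast
        rw [sub_eq_zero, ← e, sub_add_cancel])
    ext i
    have e2 := congrArg (fun p => Polynomial.coeff p (i.1 + 1)) this
    simp only [Polynomial.coeff_sub, Polynomial.finset_sum_coeff, Polynomial.coeff_monomial,
      Polynomial.coeff_C_succ, add_left_inj, Fin.val_inj, Finset.sum_ite_eq', Finset.mem_univ,
      if_true, sub_zero, Polynomial.coeff_zero] at e2
    exact e2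

def W : Subgroup (Equiv.Perm (T × ℤ)) := Subgroup.closure
  (insert
    (Equiv.prodShear (Equiv.refl T)
      (fun w => if w = 0 then Equiv.addRight (1 : ℤ) else Equiv.refl ℤ) : Equiv.Perm (T × ℤ))
    (Set.range fun i : Fin 4 =>
      (Equiv.prodCongr (Equiv.addRight (Pi.single i (1 : ℤ) : T)) (Equiv.refl ℤ) :
        Equiv.Perm (T × ℤ))))

def Rep (g : Equiv.Perm (T × ℤ)) (d : T × (T →₀ ℤ)) : Prop :=
  ∀ w k, g (w, k) = (w + d.1, k + d.2 w)

noncomputable def sh (t : T) (f : T →₀ ℤ) : T →₀ ℤ := Finsupp.equivMapDomain (Equiv.subRight t) f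

lemma sh_app (t : T) (f : T →₀ ℤ) (w : T) : sh t f w = f (w + t) := rfl

lemma Rep.mul {g g' : Equiv.Perm (T × ℤ)} {d d' : T × (T →₀ ℤ)} (h : Rep g d) (h' : Rep g' d') :
    Rep (g * g') (d.1 + d'.1, d'.2 + sh d'.1 d.2) := by
  intro w k
  rw [Equiv.Perm.mul_apply, h', h]
  simp only [Finsupp.add_apply, sh_app]
  congr 1 <;> ring

lemma Rep.inv {g : Equiv.Perm (T × ℤ)} {d : T × (T →₀ ℤ)} (h : Rep g d) :
    Rep g⁻¹ (-d.1, -sh (-d.1) d.2) := by
  intro w k
  rw [Equiv.Perm.inv_eq_iff_eq, h]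
  simp [sh_app]

lemma Rep.one : Rep 1 0 := fun w k => by simp

lemma Rep.uniq {g : Equiv.Perm (T × ℤ)} {d d' : T × (T →₀ ℤ)} (h : Rep g d) (h' : Rep g d') :
    d = d' := by
  have e := fun w => (h w 0).symm.trans (h' w 0)
  simp only [Prod.mk.injEq, add_right_inj] at e
  exact Prod.ext (e 0).1 (Finsupp.ext fun w => (e w).2)

lemma rep1 : Rep (Equiv.prodShear (Equiv.refl T)
    (fun w => if w = 0 then Equiv.addRight (1 : ℤ) else Equiv.refl ℤ))
    (0, Finsupp.single 0 1) := by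
  intro w k
  by_cases h : w = 0 <;> simp [h]

lemma rep2 (i : Fin 4) : Rep (Equiv.prodCongr (Equiv.addRight (Pi.single i (1 : ℤ) : T))
    (Equiv.refl ℤ)) (Pi.single i 1, 0) := by
  intro w k
  simp

lemma ex_rep (g : W) : ∃ d, Rep g d := by
  obtain ⟨g, hg⟩ := g
  induction hg using Subgroup.closure_induction with
  | mem x hx =>
    rcases hx with rfl | ⟨i, rfl⟩
    · exact ⟨_, rep1⟩
    · exact ⟨_, rep2 i⟩
  | one => exact ⟨_, Rep.one⟩
  | mul x y _ _ a b => exact ⟨_, a.choose_spec.mul b.choose_spec⟩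
  | inv x _ a => exact ⟨_, a.choose_spec.inv⟩

section
variable (α : Fin 4 → ℝ)

noncomputable def a (w : T) : ℝ := ∑ i, (w i : ℝ) * α i

lemma a_add (w v : T) : a α (w + v) = a α w + a α v := by
  simp [a, add_mul, Finset.sum_add_distrib]

lemma a_sub (w v : T) : a α (w - v) = a α w - a α v := by
  rw [eq_sub_iff_add_eq, ← a_add, sub_add_cancel]

lemma a_zero : a α 0 = 0 := by simp [a]

noncomputable def θ (f : T →₀ ℤ) (p : ℝ × ℝ) : ℝ := f.sum fun w n => n * φ (ρ (-a α w) p)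

noncomputable def FF (d : T × (T →₀ ℤ)) : V → V := F (a α d.1) (θ α d.2)

lemma FF_mul (d d' : T × (T →₀ ℤ)) (z : V) :
    FF α (d.1 + d'.1, d'.2 + sh d'.1 d.2) z = FF α d (FF α d' z) := by
  simp only [FF, F, yy_mk, xx_mk, ρ_add, a_add]
  congr 3
  simp only [θ]
  rw [Finsupp.sum_add_index' (by simp) (by intros; push_cast; ring), sh,
    Finsupp.sum_equivMapDomain, add_comm]
  congr 2
  ext w n
  rw [ρ_add, Equiv.subRight_apply, a_sub]
  congr 3; ring

lemma FF_zero (z : V) : FF α 0 z = z := by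
  simp [FF, F, θ, a_zero, ρ_zero, mk_eta]

noncomputable def act : W →* Function.End (Metric.sphere (0 : V) 1) where
  toFun g z := ⟨FF α (ex_rep g).choose z, by
    have := z.2
    simp only [mem_sphere_zero_iff_norm] at this ⊢
    rw [FF, F_norm, this]⟩
  map_one' := by
    funext z
    apply Subtype.ext
    simp only [(ex_rep 1).choose_spec.uniq Rep.one, FF_zero]
    rfl
  map_mul' g g' := by
    funext z
    apply Subtype.ext
    simp only [(ex_rep (g * g')).choose_spec.uniq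
      ((ex_rep g).choose_spec.mul (ex_rep g').choose_spec), FF_mul]
    rfl

lemma all_PL (hα : ∀ i, |α i| ≤ 1) (g : W) :
    ∀ d, Rep g d → PL (Metric.sphere 0 1) (FF α d) := by
  obtain ⟨g, hg⟩ := g
  have mp : ∀ d, ∀ z ∈ Metric.sphere (0:V) 1, FF α d z ∈ Metric.sphere (0:V) 1 := by
    intro d z hz
    simp only [mem_sphere_zero_iff_norm] at hz ⊢
    rw [FF, F_norm, hz]
  suffices h : (∃ d, Rep g d ∧ PL (Metric.sphere 0 1) (FF α d)) ∧
      ∃ d, Rep g⁻¹ d ∧ PL (Metric.sphere 0 1) (FF α d) by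
    intro d hd
    obtain ⟨d', h1, h2⟩ := h.1
    rwa [hd.uniq h1]
  induction hg using Subgroup.closure_induction with
  | mem x hx =>
    rcases hx with rfl | ⟨i, rfl⟩
    · refine ⟨⟨_, rep1, (F_PL (t := 0) (c := 1) (by simp) (by simp)).congr fun z _ => ?_⟩,
        ⟨_, rep1.inv, (F_PL (t := 0) (c := -1) (by simp) (by simp)).congr fun z _ => ?_⟩⟩
      · simp [FF, F, θ, a_zero, ρ_zero]
      · have : -sh (-0) (Finsupp.single (0:T) (1:ℤ)) = Finsupp.single 0 (-1) := by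
          ext w; simp [sh_app]
        simp only [this, FF, F, θ]
        rw [Finsupp.sum_single_index (by simp)]
        simp [a_zero, ρ_zero]
    · have e : a α (Pi.single i 1) = α i := by simp [a, Pi.single_apply]
      have e' : a α (-Pi.single i 1) = -α i := by rw [← zero_sub, a_sub, a_zero, e, zero_sub]
      refine ⟨⟨_, rep2 i, (F_PL (t := α i) (c := 0) (hα i) (by simp)).congr fun z _ => ?_⟩,
        ⟨_, (rep2 i).inv, (F_PL (t := -α i) (c := 0) (by simpa using hα i)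
          (by simp)).congr fun z _ => ?_⟩⟩
      · simp [FF, F, θ, e]
      · have : -sh (-Pi.single i 1) (0 : T →₀ ℤ) = 0 := by ext w; simp [sh_app]
        simp only [this]
        simp [FF, F, θ, e']
  | one =>
    rw [inv_one, and_self]
    exact ⟨_, Rep.one, (PL.id _).congr fun z _ => FF_zero α z⟩
  | mul x y _ _ a b =>
    obtain ⟨⟨d1, a1, a2⟩, d2, a3, a4⟩ := a
    obtain ⟨⟨e1, b1, b2⟩, e2, b3, b4⟩ := b
    rw [mul_inv_rev]
    exact ⟨⟨_, a1.mul b1, (a2.comp b2 (mp _)).congr fun z _ => FF_mul α _ _ z⟩,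
      ⟨_, b3.mul a3, (b4.comp a4 (mp _)).congr fun z _ => FF_mul α _ _ z⟩⟩
  | inv x _ a => rw [inv_inv]; exact a.symm

lemma faith (hα : ∀ (w : T) (k : ℤ), a α w = k → w = 0) (d : T × (T →₀ ℤ))
    (e : ∀ z ∈ Metric.sphere (0:V) 1, FF α d z = z) : d = 0 := by
  have e1 : ∀ p : ℝ × ℝ, ‖p‖ ≤ 1 → ρ (a α d.1) p = p ∧ ρ (θ α d.2 p) (γ 0) = γ 0 := by
    intro p hp
    have := e (mk (p, γ 0)) (by
      rw [mem_sphere_zero_iff_norm, mk_norm, γ_norm, max_eq_right hp])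
    exact ⟨congrArg yy this, congrArg xx this⟩
  obtain ⟨j, hj⟩ := ρ_fix (e1 _ (γ_norm 0).le).1
  refine Prod.ext (hα _ (8 * j) (by rw [hj]; push_cast; ring)) ?_
  apply indep (a α) (fun v w k e => sub_eq_zero.1 (hα _ (2 * k) (by rw [a_sub, e]; push_cast; ring)))
  intro s
  set S := ∑ w ∈ d.2.support, (d.2 w : ℝ) * h (s - a α w) with hS
  have k : ∀ r : ℝ, 0 ≤ r → r ≤ 1 / 2 → ∃ j : ℤ, r * S = 8 * j := by
    intro r r0 r1
    obtain ⟨j, hj⟩ := ρ_fix (e1 (r • γ s) (by rw [nrm r0]; linarith)).2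
    refine ⟨j, ?_⟩
    rw [← hj, hS, θ, Finsupp.sum, Finset.mul_sum]
    apply Finset.sum_congr rfl
    intro w _
    rw [ρ_eq r0, φ_small (by rw [nrm r0]; exact r1)]
    simp only [γ, Prod.smul_mk, smul_eq_mul, sub_eq_add_neg]
    ring
  have p : 0 < |S| + 2 := by positivity
  obtain ⟨j, hj⟩ := k (1 / (|S| + 2)) (by positivity)
    (one_div_le_one_div_of_le (by norm_num) (by linarith [abs_nonneg S]))
  have b : |1 / (|S| + 2) * S| < 1 := by
    rw [abs_mul, abs_of_pos (by positivity), one_div, inv_mul_lt_iff₀ p]; linarith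
  rw [hj, abs_lt] at b
  have j1 : (-1:ℝ) < j := by linarith [b.1]
  have j2 : (j:ℝ) < 1 := by linarith [b.2]
  have j0 : j = 0 := by
    have : -1 < j := by exact_mod_cast j1
    have : j < 1 := by exact_mod_cast j2
    omega
  rw [j0] at hj
  simpa [p.ne'] using hj

end

theorem main : ∃ ψ : W →* Equiv.Perm ↥(Metric.sphere (0 : Fin 4 → ℝ) 1),
      Function.Injective ψ ∧
        ∀ g, Continuous (ψ g) ∧
          ∃ m : ℕ, ∃ C : Fin m → Set (Fin 4 → ℝ),
            ∃ A : Fin m → ((Fin 4 → ℝ) →ᵃ[ℝ] (Fin 4 → ℝ)),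
              (∀ j, ∃ s : Finset (Fin 4 → ℝ), C j = convexHull ℝ (↑s : Set (Fin 4 → ℝ))) ∧
              (∀ x : ↥(Metric.sphere (0 : Fin 4 → ℝ) 1), ∃ j, (↑x : Fin 4 → ℝ) ∈ C j) ∧
              (∀ j, ∀ x : ↥(Metric.sphere (0 : Fin 4 → ℝ) 1), (↑x : Fin 4 → ℝ) ∈ C j →
                (↑((ψ g) x) : Fin 4 → ℝ) = A j (↑x : Fin 4 → ℝ)) := by
  obtain ⟨α, h1, h2⟩ := ex_α
  refine ⟨(act α).toHomPerm, ?_, fun g => ?_⟩
  · rw [injective_iff_map_eq_one]
    intro g hg
    have := faith α h2 (ex_rep g).choose fun z hz =>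
      congrArg Subtype.val (DFunLike.congr_fun hg (⟨z, hz⟩ : Metric.sphere (0 : V) 1))
    have r := (ex_rep g).choose_spec
    rw [this] at r
    ext1
    ext1 ⟨w, k⟩
    simpa using r w k
  · obtain ⟨c, m, C, A, b1, b2, b3⟩ := (all_PL α h1 g _ (ex_rep g).choose_spec).out
    exact ⟨Continuous.subtype_mk c.restrict _, m, C, A, b1, fun x => b2 x x.2,
      fun j x hx => b3 j x x.2 hx⟩

end Pool.Agent.H.MP_0f8bf3_al
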